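import Mathlib

namespace Pool.Agent.Results.MP_a9e7a9_an.Yes

open Complex
open scoped ComplexStarModule

section cstar
variable {A : Type*} [CStarAlgebra A] [PartialOrder A] [StarOrderedRing A]

omit [PartialOrder A] [StarOrderedRing A] in
lemma approx (N : A) [IsStarNormal N] {z : ℂ} (hz : z ∈ spectrum ℂ N) {ι : Type} [Fintype ι]
    (F : ι → ℂ → ℂ) (hF : ∀ i, Continuous (F i)) {ε : ℝ} (hε : 0 < ε) :
    ∃ K : A, K ≠ 0 ∧ ∀ i, ‖cfc (F i) N * K - F i z • K‖ ≤ ε * ‖K‖ := by
  obtain ⟨m, hm⟩ : ∃ m : ℂ → ℝ, m = fun w => ∑ i, ‖F i w - F i z‖ := ⟨_, rfl⟩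
  have mc : Continuous m := by rw [hm]; fun_prop
  have mle : ∀ i w, ‖F i w - F i z‖ ≤ m w := fun i w => by
    rw [hm]
    exact Finset.single_le_sum (f := fun i => ‖F i w - F i z‖) (fun _ _ => norm_nonneg _)
      (Finset.mem_univ i)
  have pos : ∀ w, 0 < max ε (m w) := fun w => lt_max_of_lt_left hε
  have c1 : Continuous fun w => ((max 0 (ε - m w) : ℝ) : ℂ) := by fun_prop
  refine ⟨cfc (fun w => ((max 0 (ε - m w) : ℝ) : ℂ)) N, fun h => ?_, fun i => ?_⟩
  · have := norm_apply_le_norm_cfc (fun w => ((max 0 (ε - m w) : ℝ) : ℂ)) N hz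
    rw [h] at this
    simp [hm, hε.le, hε.ne'] at this
  · have c2 : Continuous fun w => (F i w - F i z) * ((ε / max ε (m w) : ℝ) : ℂ) :=
      ((hF i).sub continuous_const).mul (continuous_ofReal.comp
        (continuous_const.div (by fun_prop) fun w => (pos w).ne'))
    have := hF i
    rw [← cfc_mul .., ← cfc_smul .., ← cfc_sub ..,
      cfc_congr (g := fun w => (F i w - F i z) * ((ε / max ε (m w) : ℝ) : ℂ) *
        ((max 0 (ε - m w) : ℝ) : ℂ)), cfc_mul _ _ _ c2.continuousOn c1.continuousOn]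
    · refine (norm_mul_le _ _).trans (mul_le_mul_of_nonneg_right
        (norm_cfc_le hε.le fun w _ => ?_) (norm_nonneg _))
      rw [norm_mul, norm_real, Real.norm_of_nonneg (div_pos hε (pos w)).le, mul_div_assoc',
        div_le_iff₀ (pos w), mul_comm]
      exact mul_le_mul_of_nonneg_left ((mle i w).trans (le_max_right _ _)) hε.le
    · intro w _
      rcases le_total (m w) ε with h | h
      · simp only [max_eq_left h, div_self hε.ne', ofReal_one, smul_eq_mul]; ring
      · simp [max_eq_left (sub_nonpos.2 h)]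

lemma loc {P B : A} (hP : IsSelfAdjoint P) (hB : IsSelfAdjoint B) (hc : Commute P B) {ι : Type}
    [Fintype ι] (C : ι → A) (g : ι → ℝ → ℝ) (hg : ∀ i, Continuous (g i))
    (hBe : B = ∑ i, C i * cfc (g i) P) (hpos : ∀ t ∈ spectrum ℝ P, 0 ≤ ∑ i, g i t • C i) :
    0 ≤ B := by
  rw [StarOrderedRing.nonneg_iff_spectrum_nonneg (R := ℝ) B]
  intro δ hδ
  by_contra hneg
  push Not at hneg
  have hr : (ℜ (P + I • B) : A) = P := by
    simp [realPart_I_smul, hP.coe_realPart, hB.imaginaryPart]
  have hi : (ℑ (P + I • B) : A) = B := by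
    simp [imaginaryPart_I_smul, hB.coe_realPart, hP.imaginaryPart]
  generalize P + I • B = N at hr hi
  haveI : IsStarNormal N := by rwa [isStarNormal_iff_commute_realPart_imaginaryPart, hr, hi]
  rw [← hi, spectrum_imaginaryPart' N] at hδ
  obtain ⟨z, hz, rfl⟩ := hδ
  have ht : z.re ∈ spectrum ℝ P := by rw [← hr, spectrum_realPart' N]; exact ⟨z, hz, rfl⟩
  obtain ⟨M, hM⟩ : ∃ M : ℝ, M = ∑ i, ‖C i‖ := ⟨_, rfl⟩
  have hM0 : 0 ≤ M := hM ▸ Finset.sum_nonneg fun _ _ => norm_nonneg _
  obtain ⟨K, hK, h⟩ := approx N hz (fun o : Option ι => o.elim (fun w => (w.im : ℂ))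
    fun i w => (g i w.re : ℂ)) (by rintro (_ | i) <;> dsimp <;> fun_prop)
    (ε := -z.im / (2 * (M + 1))) (by have := neg_pos.2 hneg; positivity)
  have h0 := h none
  have h1 := fun i => h (some i)
  simp only [Option.elim] at h0 h1
  rw [cfc_im_id N, hi, coe_smul] at h0
  simp only [fun i => cfc_comp_re (g i) N (hg i).continuousOn, hr, coe_smul] at h1
  generalize hε : -z.im / (2 * (M + 1)) = ε at h0 h1
  have hε' : ε * (2 * (M + 1)) = -z.im := by rw [← hε]; field_simp
  have hε0 : 0 < ε := by rw [← hε]; have := neg_pos.2 hneg; positivity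
  have e : (-z.im) • (star K * K) + star K * (∑ i, g i z.re • C i) * K =
      star K * ((B * K - z.im • K) - ∑ i, C i * (cfc (g i) P * K - g i z.re • K)) := by
    have : ∑ i, C i * (cfc (g i) P * K - g i z.re • K) = B * K - (∑ i, g i z.re • C i) * K := by
      simp only [hBe, Finset.sum_mul, ← Finset.sum_sub_distrib, mul_sub, mul_assoc, mul_smul_comm,
        smul_mul_assoc]
    rw [this]
    simp only [mul_sub, mul_smul_comm, mul_assoc, neg_smul]
    abel
  have h2 : ‖(-z.im) • (star K * K)‖ ≤ ‖K‖ * (ε * ‖K‖ + M * (ε * ‖K‖)) := by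
    refine (CStarAlgebra.norm_le_norm_of_nonneg_of_le
      (smul_nonneg (neg_pos.2 hneg).le (star_mul_self_nonneg K))
      (le_add_of_nonneg_right (star_left_conjugate_nonneg (hpos _ ht) K))).trans ?_
    rw [e]
    refine (norm_mul_le _ _).trans ?_
    rw [norm_star]
    refine mul_le_mul_of_nonneg_left ((norm_sub_le _ _).trans (add_le_add h0 ?_)) (norm_nonneg _)
    rw [hM, Finset.sum_mul]
    exact norm_sum_le_of_le _ fun i _ => (norm_mul_le _ _).trans
      (mul_le_mul_of_nonneg_left (h1 i) (norm_nonneg _))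
  rw [norm_smul, CStarRing.norm_star_mul_self, Real.norm_of_nonneg (neg_pos.2 hneg).le,
    ← hε'] at h2
  have h3 : 0 < ε * (M + 1) * (‖K‖ * ‖K‖) := by have := norm_pos_iff.2 hK; positivity
  nlinarith

noncomputable def pw (P : A) (r : ℝ) : A := cfc (fun x : ℝ => x ^ r) P

variable {P V : A}

omit [PartialOrder A] [StarOrderedRing A] in
lemma pw_sa (P : A) (r : ℝ) : IsSelfAdjoint (pw P r) := cfc_predicate _ _

lemma pw_add (hP : 0 ≤ P) {r s : ℝ} (hr : 0 ≤ r) (hs : 0 ≤ s) :
    pw P r * pw P s = pw P (r + s) := by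
  rw [pw, pw, pw, ← cfc_mul _ _ _ (Real.continuous_rpow_const hr).continuousOn
    (Real.continuous_rpow_const hs).continuousOn]
  exact cfc_congr fun x hx => (Real.rpow_add_of_nonneg (spectrum_nonneg_of_nonneg hP hx) hr hs).symm

lemma pw_one (hP : 0 ≤ P) : pw P 1 = P := by
  simp only [pw, Real.rpow_one]; exact cfc_id' ℝ P

lemma pw_zero (hP : 0 ≤ P) : pw P 0 = 1 := by
  simp only [pw, Real.rpow_zero]; exact cfc_const_one ℝ P

lemma pw_comm (hP : 0 ≤ P) {X : A} {c : ℝ} (hc : 0 < c) (h : Commute (pw P c) X) (r : ℝ) :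
    Commute (pw P r) X := by
  have : P = cfc (fun x : ℝ => x ^ c⁻¹) (pw P c) := by
    rw [pw, ← cfc_comp' _ _ _ (Real.continuous_rpow_const (inv_nonneg.2 hc.le)).continuousOn
      (Real.continuous_rpow_const hc.le).continuousOn]
    conv_lhs => rw [← cfc_id' ℝ P]
    exact cfc_congr fun x hx =>
      (Real.rpow_rpow_inv (spectrum_nonneg_of_nonneg hP hx) hc.ne').symm
  have h1 : Commute P X := by rw [this]; exact h.cfc_real _
  exact h1.cfc_real _

lemma pw_kill (hP : 0 ≤ P) {W : A} (h : P * W = 0) {r : ℝ} (hr : 0 < r) : pw P r * W = 0 := by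
  have key : ∀ k : ℕ, ∀ r : ℝ, 0 < r → 1 ≤ r * 2 ^ k → pw P r * W = 0 := by
    intro k
    induction k with
    | zero =>
      intro r _ h1
      rw [pow_zero, mul_one] at h1
      rw [← sub_add_cancel r 1, ← pw_add hP (by linarith) zero_le_one, pw_one hP, mul_assoc, h,
        mul_zero]
    | succ k ih =>
      intro r hr h1
      have := ih (r + r) (by linarith) (by rw [pow_succ] at h1; linarith)
      rw [← CStarRing.star_mul_self_eq_zero_iff, star_mul, (pw_sa P r).star_eq, mul_assoc,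
        ← mul_assoc (pw P r), pw_add hP hr.le hr.le, this, mul_zero]
  obtain ⟨k, hk⟩ := pow_unbounded_of_one_lt r⁻¹ (one_lt_two (α := ℝ))
  exact key k r hr (by rw [inv_lt_iff_one_lt_mul₀' hr] at hk; exact hk.le)

omit [PartialOrder A] [StarOrderedRing A] in
lemma comm_of_sa {X Y : A} (hX : IsSelfAdjoint X) (hY : IsSelfAdjoint Y)
    (h : IsSelfAdjoint (X * Y)) : Commute Y X := by
  have := h.star_eq
  rwa [star_mul, hX.star_eq, hY.star_eq] at this

lemma core (hP : 0 ≤ P) (hE : star V * V * P = P) (hV : V * (star V * V) = V)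
    (hk : ∀ Z : A, Z * P = 0 → Z * star V = 0) {a : ℝ} (ha : 0 ≤ a) (ha' : a ≤ 1 / 2)
    (h : pw P a * V * pw P (1 - a) + pw P (1 - a) * V * pw P a = 2 * (V * P)) :
    Commute P V := by
  rcases ha.eq_or_lt with rfl | ha0
  · rw [sub_zero, pw_zero hP, pw_one hP, one_mul, mul_one, two_mul] at h
    exact add_left_cancel h
  have hEs : IsSelfAdjoint (star V * V) := .star_mul_self V
  have hE' : ∀ r, 0 < r → pw P r * (star V * V) = pw P r := fun r hr => by
    have : P * (1 - star V * V) = 0 := by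
      have := congrArg star hE
      rw [star_mul, hEs.star_eq, hP.isSelfAdjoint.star_eq] at this
      rw [mul_sub, this, mul_one, sub_self]
    have := pw_kill hP this hr
    rwa [mul_sub, mul_one, sub_eq_zero, eq_comm] at this
  have hE'' : ∀ r, 0 < r → star V * V * pw P r = pw P r := fun r hr => by
    have := congrArg star (hE' r hr)
    rwa [star_mul, hEs.star_eq, (pw_sa P r).star_eq] at this
  obtain ⟨b, hb⟩ : ∃ b, b = 1 - a := ⟨_, rfl⟩
  obtain ⟨c, hc⟩ : ∃ c, c = 1 - 2 * a := ⟨_, rfl⟩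
  rw [← hb] at h
  have hb0 : 0 < b := by linarith
  have hc0 : 0 ≤ c := by linarith
  have hca : pw P c * pw P a = pw P b := by rw [pw_add hP hc0 ha, hb, hc]; congr 1; ring
  have hba : pw P b * pw P a = P := by rw [pw_add hP hb0.le ha, hb, sub_add_cancel, pw_one hP]
  have hab : pw P a * pw P b = P := by rw [pw_add hP ha hb0.le, hb, add_sub_cancel, pw_one hP]
  have hZ : (pw P a * V * pw P c + pw P b * V - 2 * (V * pw P b)) * (star V * V) = 0 := by
    rw [← mul_assoc, hk, zero_mul]
    have : (pw P a * V * pw P c + pw P b * V - 2 * (V * pw P b)) * pw P a = 0 := by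
      rw [sub_mul, add_mul, mul_assoc _ (pw P c), hca, h, mul_assoc 2, mul_assoc V, hba, sub_self]
    have := congrArg (· * pw P b) this
    simpa only [mul_assoc, hab, zero_mul] using this
  suffices H : pw P b * V = V * pw P b by simpa only [pw_one hP] using pw_comm hP hb0 H 1
  rcases hc0.eq_or_lt with rfl | hc0'
  · have e : a = b := by linarith
    rw [pw_zero hP, mul_one, e, ← two_mul, ← mul_sub, mul_assoc, sub_mul, mul_assoc, mul_assoc,
      hV, hE' b hb0, two_mul, ← two_smul ℂ, smul_eq_zero_iff_right two_ne_zero] at hZ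
    exact sub_eq_zero.1 hZ
  have hs : pw P a * V * pw P c + pw P b * V = 2 * (V * pw P b) := by
    rw [sub_mul, add_mul, mul_assoc _ (pw P c), hE' c hc0', mul_assoc (pw P b) V, hV, mul_assoc 2,
      mul_assoc V, hE' b hb0] at hZ
    exact sub_eq_zero.1 hZ
  obtain ⟨Φ, hΦ⟩ : ∃ Φ : ℝ → A, Φ = fun r => star V * pw P r * V := ⟨_, rfl⟩
  have Φs : ∀ r, IsSelfAdjoint (Φ r) := fun r => by rw [hΦ]; exact (pw_sa P r).conjugate' V
  have rel : ∀ r, 0 ≤ r → Φ (r + a) * pw P c = Φ r * pw P b + Φ r * pw P b - Φ (r + b) := by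
    intro r hr
    simp only [hΦ, ← pw_add hP hr ha, ← pw_add hP hr hb0.le, eq_sub_iff_add_eq, mul_assoc,
      ← mul_add]
    rw [← mul_assoc (pw P a), hs, two_mul, ← mul_add]
  have Φ0 : Φ 0 = star V * V := by simp only [hΦ, pw_zero hP, mul_one]
  have step : ∀ r, 0 ≤ r → Commute (pw P b) (Φ r) → ∀ s,
      Commute (pw P s) (Φ (r + a)) ∧ Commute (pw P s) (Φ (r + b)) := by
    intro r hr hcm s
    have h1 : IsSelfAdjoint (Φ r * pw P b) := (Φs r).commute_iff (pw_sa P b) |>.1 hcm.symm
    have h2 := pw_comm hP hc0' (comm_of_sa (Φs _) (pw_sa P c)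
      (by rw [rel r hr]; exact (h1.add h1).sub (Φs _))) s
    refine ⟨h2, ?_⟩
    have pp : ∀ t, Commute (pw P s) (pw P t) := fun t => cfc_commute_cfc _ _ _
    have h3 := (pw_comm hP hb0 hcm s).mul_right (pp b)
    rw [eq_sub_of_add_eq' (eq_sub_iff_add_eq.1 (rel r hr))]
    exact (h3.add_right h3).sub_right (h2.mul_right (pp c))
  have c0 : ∀ s, 0 < s → Commute (pw P s) (Φ 0) := fun s hs => by
    rw [Φ0, Commute, SemiconjBy, hE' s hs, hE'' s hs]
  have cX := fun s => (step 0 le_rfl (c0 b hb0) s).1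
  have cY := fun s => (step 0 le_rfl (c0 b hb0) s).2
  simp only [zero_add] at cX cY
  have cS := fun s => (step a ha (cX b) s).2
  have r0 := rel 0 le_rfl
  have rb := rel b hb0.le
  rw [show a + b = 1 by linarith] at cS
  rw [show b + a = 1 by linarith] at rb
  rw [zero_add, zero_add, Φ0, hE'' b hb0] at r0
  have hbb := pw_add hP hb0.le hb0.le
  have hD : star (pw P b * V - V * pw P b) * (pw P b * V - V * pw P b) =
      -(Φ 1 * pw P c - pw P (b + b)) := by
    have e1 : star (pw P b * V - V * pw P b) * (pw P b * V - V * pw P b) =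
        Φ (b + b) - Φ b * pw P b - pw P b * Φ b + pw P b * (star V * V * pw P b) := by
      simp only [hΦ, star_sub, star_mul, (pw_sa P b).star_eq, ← hbb]
      noncomm_ring
    rw [e1, hE'' b hb0, hbb, (cY b).eq, rb]
    abel
  have hB : 0 ≤ Φ 1 * pw P c - pw P (b + b) := by
    have cP : ∀ t, Commute P (pw P t) := fun t => by
      have : Commute (pw P 1) (pw P t) := cfc_commute_cfc _ _ _
      rwa [pw_one hP] at this
    refine loc hP.isSelfAdjoint ((((Φs 1).commute_iff (pw_sa P c)).1 (cS c).symm).sub (pw_sa _ _))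
      (((by simpa only [pw_one hP] using cS 1 : Commute P (Φ 1)).mul_right (cP c)).sub_right (cP _))
      ![Φ 1, -Φ b, -Φ a, Φ 0] (fun i x => x ^ ![c, b, c + b, b + b] i)
      (fun i => Real.continuous_rpow_const (by fin_cases i <;> simp <;> linarith)) ?_ fun t ht => ?_
    · simp only [Fin.sum_univ_four, Matrix.cons_val_zero, Matrix.cons_val_one, Matrix.cons_val]
      change _ = Φ 1 * pw P c + -Φ b * pw P b + -Φ a * pw P (c + b) + Φ 0 * pw P (b + b)
      rw [Φ0, hE'' _ (by linarith), ← pw_add hP hc0 hb0.le, neg_mul, neg_mul, ← mul_assoc, r0,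
        ← hbb]
      noncomm_ring
    · have ht0 := spectrum_nonneg_of_nonneg hP ht
      have h1 : 0 ≤ (pw P b - algebraMap ℝ A (t ^ b)) * (pw P a - algebraMap ℝ A (t ^ a)) := by
        have c1 := Real.continuous_rpow_const hb0.le
        have c2 := Real.continuous_rpow_const ha
        rw [pw, pw, ← cfc_const (t ^ b) P, ← cfc_const (t ^ a) P, ← cfc_sub .., ← cfc_sub ..,
          ← cfc_mul ..]
        refine cfc_nonneg fun x hx => ?_
        have hx0 := spectrum_nonneg_of_nonneg hP hx
        rcases le_total x t with h | h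
        · exact mul_nonneg_of_nonpos_of_nonpos (sub_nonpos.2 (Real.rpow_le_rpow hx0 h hb0.le))
            (sub_nonpos.2 (Real.rpow_le_rpow hx0 h ha))
        · exact mul_nonneg (sub_nonneg.2 (Real.rpow_le_rpow ht0 h hb0.le))
            (sub_nonneg.2 (Real.rpow_le_rpow ht0 h ha))
      have h2 := smul_nonneg (Real.rpow_nonneg ht0 c) (star_left_conjugate_nonneg h1 V)
      convert h2 using 1
      have e1 : t ^ b = t ^ c * t ^ a := by
        rw [← Real.rpow_add_of_nonneg ht0 hc0 ha, hb, hc]; congr 1; ring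
      simp only [Fin.sum_univ_four, Matrix.cons_val_zero, Matrix.cons_val_one, Matrix.cons_val,
        Real.rpow_add_of_nonneg ht0 hc0 hb0.le, Real.rpow_add_of_nonneg ht0 hb0.le hb0.le, Φ0]
      simp only [hΦ, pw_one hP, Algebra.algebraMap_eq_smul_one, sub_mul, mul_sub, hba,
        smul_mul_assoc, mul_smul_comm, one_mul, mul_one, smul_sub, smul_smul, smul_neg]
      rw [← e1, mul_comm (t ^ a), ← mul_assoc, mul_right_comm, ← e1]
      abel
  rw [← sub_eq_zero, ← CStarRing.star_mul_self_eq_zero_iff]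
  exact le_antisymm (by rw [hD]; exact neg_nonpos.2 hB) (star_mul_self_nonneg _)

end cstar

variable {H : Type*} [NormedAddCommGroup H] [InnerProductSpace ℂ H] [CompleteSpace H]

/-- `T = V |T|` is the canonical polar decomposition: `V` is a partial isometry with
`ker V = ker T`. -/
def IsPolar (T V : H →L[ℂ] H) : Prop :=
  IsStarProjection (star V * V) ∧ T = V * CFC.abs T ∧ ∀ x, V x = 0 ↔ T x = 0

/-- `Δ_μ(T) = |T|^μ V |T|^(1-μ)`. -/
noncomputable def aluthge (μ : ℝ) (T V : H →L[ℂ] H) : H →L[ℂ] H :=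
  CFC.abs T ^ μ * V * CFC.abs T ^ (1 - μ)

/-- `M_λ(T) = (Δ_λ(T) + Δ_(1-λ)(T)) / 2`. -/
noncomputable def meanAluthge (l : ℝ) (T V : H →L[ℂ] H) : H →L[ℂ] H :=
  (1 / 2 : ℂ) • (aluthge l T V + aluthge (1 - l) T V)

theorem result {H : Type*} [NormedAddCommGroup H] [InnerProductSpace ℂ H] [CompleteSpace H]
    (l : ℝ) (h0 : 0 ≤ l) (h1 : l ≤ 1 / 2) (T V : H →L[ℂ] H) (hV : IsPolar T V) :
    meanAluthge l T V = T ↔ Commute T (star T * T) := by
  obtain ⟨hE, hT, hk⟩ := hV
  have hP := CFC.abs_nonneg T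
  have hPP := CFC.abs_mul_abs T
  simp only [meanAluthge, aluthge, CFC.rpow_eq_cfc_real hP, sub_sub_cancel]
  generalize CFC.abs T = P at hT hP hPP
  have hPs := hP.isSelfAdjoint.star_eq
  have hEs := hE.isSelfAdjoint.star_eq
  have hEE := hE.isIdempotentElem.eq
  have hV : V * (star V * V) = V := by
    rw [← sub_eq_zero, ← CStarRing.star_mul_self_eq_zero_iff, star_sub, star_mul, hEs]
    calc _ = star V * V * (star V * V) * (star V * V) - star V * V * (star V * V) -
        star V * V * (star V * V) + star V * V := by noncomm_ring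
      _ = 0 := by rw [hEE, hEE]; abel
  have hEP : star V * V * P = P := by
    rw [← sub_eq_zero, ← CStarRing.star_mul_self_eq_zero_iff, star_sub, star_mul, hEs, hPs]
    calc _ = P * (star V * V * (star V * V)) * P - P * (star V * V) * P -
        P * (star V * V) * P + P * P := by noncomm_ring
      _ = 0 := by rw [hEE, hPP, hT, star_mul, hPs]; noncomm_ring
  have hk' : ∀ Z : H →L[ℂ] H, Z * P = 0 → Z * star V = 0 := fun Z hZ => by
    have h2 : P * star Z = 0 := by simpa [hPs] using congrArg star hZ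
    have h3 : V * star Z = 0 := by
      ext x
      refine (hk _).2 ?_
      have : T * star Z = 0 := by rw [hT, mul_assoc, h2, mul_zero]
      exact congrArg (fun S : H →L[ℂ] H => S x) this
    simpa using congrArg star h3
  change (1 / 2 : ℂ) • (pw P l * V * pw P (1 - l) + pw P (1 - l) * V * pw P l) = T ↔ _
  constructor
  · intro h
    have hc := core hP hEP hV hk' h0 h1 (by
      rw [← hT, ← h, two_mul, ← add_smul, add_halves, one_smul])
    rw [← hPP, hT]
    have : Commute (V * P) P := hc.symm.mul_left (Commute.refl P)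
    exact this.mul_right this
  · intro h
    have h2 : Commute (pw P 2) T := by
      rw [← one_add_one_eq_two, ← pw_add hP zero_le_one zero_le_one, pw_one hP, hPP]
      exact h.symm
    have h3 := pw_comm hP two_pos h2 1
    rw [pw_one hP] at h3
    have h4 : (P * V - V * P) * (star V * V) = 0 := by
      rw [← mul_assoc, hk', zero_mul]
      rw [sub_mul, mul_assoc, ← hT, h3.eq, sub_self]
    have h5 : P * (star V * V) = P := by simpa [hPs] using congrArg star hEP
    rw [sub_mul, mul_assoc, hV, mul_assoc, h5, sub_eq_zero] at h4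
    have h6 := pw_comm hP one_pos (by rw [pw_one hP]; exact h4 : Commute (pw P 1) V)
    rw [(h6 _).eq, (h6 _).eq, mul_assoc, mul_assoc, pw_add hP h0 (by linarith),
      pw_add hP (by linarith) h0, add_sub_cancel, sub_add_cancel, pw_one hP, ← hT, smul_add,
      ← add_smul, add_halves, one_smul]

end Pool.Agent.Results.MP_a9e7a9_an.Yes
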